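import Pool.Agent.Helper17.SL.GoalsZE

/-!
# Project SL (MP_fc6b1e_nt): dimension of the spaces `F_x` (packet ZA)
-/

set_option autoImplicit false

namespace Pool.Agent.Helper17.SL.PkZA

open MvPolynomial Module

universe u v w x y z

theorem thm : S_ZA.{u, x, y} := by
  intro K _ I J _ _ T S x hT hS hx
  classical
  set A : Set (I ⊕ J →₀ ℕ) := {d | wt T S d ≤ x * (S * T)} with hA
  -- bounds for the exponents
  have hI : ∀ d ∈ A, ∀ i, d (Sum.inl i) ≤ x * T := by
    intro d hd i
    have h1 : S * d (Sum.inl i) ≤ wt T S d := by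
      unfold wt
      have : d (Sum.inl i) ≤ ∑ i, d (Sum.inl i) :=
        Finset.single_le_sum (f := fun i => d (Sum.inl i)) (fun _ _ => Nat.zero_le _) (Finset.mem_univ i)
      have := Nat.mul_le_mul_left S this
      omega
    have h2 : S * d (Sum.inl i) ≤ S * (x * T) := by
      have h3 : wt T S d ≤ x * (S * T) := hd
      calc S * d (Sum.inl i) ≤ x * (S * T) := h1.trans h3
        _ = S * (x * T) := by ring
    exact Nat.le_of_mul_le_mul_left h2 (by omega)
  have hJ : ∀ d ∈ A, ∀ j, d (Sum.inr j) ≤ x * S := by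
    intro d hd j
    have h1 : T * d (Sum.inr j) ≤ wt T S d := by
      unfold wt
      have : d (Sum.inr j) ≤ ∑ j, d (Sum.inr j) :=
        Finset.single_le_sum (f := fun j => d (Sum.inr j)) (fun _ _ => Nat.zero_le _) (Finset.mem_univ j)
      have := Nat.mul_le_mul_left T this
      omega
    have h2 : T * d (Sum.inr j) ≤ T * (x * S) := by
      have h3 : wt T S d ≤ x * (S * T) := hd
      calc T * d (Sum.inr j) ≤ x * (S * T) := h1.trans h3
        _ = T * (x * S) := by ring
    exact Nat.le_of_mul_le_mul_left h2 (by omega)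
  let φ : A → (I → Fin (x * T + 1)) × (J → Fin (x * S + 1)) := fun d =>
    (fun i => ⟨d.1 (Sum.inl i), Nat.lt_succ_of_le (hI d.1 d.2 i)⟩,
      fun j => ⟨d.1 (Sum.inr j), Nat.lt_succ_of_le (hJ d.1 d.2 j)⟩)
  have hφ : Function.Injective φ := by
    intro d e h
    apply Subtype.ext
    apply Finsupp.ext
    rintro (i | j)
    · have := congrFun (congrArg Prod.fst h) i
      simpa [φ] using this
    · have := congrFun (congrArg Prod.snd h) j
      simpa [φ] using this
  have : Finite A := Finite.of_injective φ hφ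
  have : Fintype A := Fintype.ofFinite A
  let b : Basis A K (Fil K I J T S x) := basisRestrictSupport K A
  refine ⟨Module.Finite.of_basis b, ?_⟩
  rw [Module.finrank_eq_card_basis b]
  calc Fintype.card A ≤ Fintype.card ((I → Fin (x * T + 1)) × (J → Fin (x * S + 1))) :=
        Fintype.card_le_of_injective φ hφ
    _ = (x * T + 1) ^ Fintype.card I * (x * S + 1) ^ Fintype.card J := by
        rw [Fintype.card_prod, Fintype.card_fun, Fintype.card_fun, Fintype.card_fin, Fintype.card_fin]
    _ ≤ (2 * (x * T)) ^ Fintype.card I * (2 * (x * S)) ^ Fintype.card J := by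
        have h1 : 1 ≤ x * T := Nat.one_le_iff_ne_zero.mpr (by positivity)
        have h2 : 1 ≤ x * S := Nat.one_le_iff_ne_zero.mpr (by positivity)
        exact Nat.mul_le_mul (Nat.pow_le_pow_left (by omega) _) (Nat.pow_le_pow_left (by omega) _)
    _ = 2 ^ (Fintype.card I + Fintype.card J) *
      (x ^ (Fintype.card I + Fintype.card J) * T ^ Fintype.card I * S ^ Fintype.card J) := by
        rw [mul_pow, mul_pow, mul_pow, mul_pow, pow_add, pow_add]
        ring

end Pool.Agent.Helper17.SL.PkZA
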